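import Mathlib
import Pool.Agent.Y826.Z.Defs3
import Pool.Agent.Helper112.TypeI

/-! Project Y826/Z: the von Mangoldt function by Vaughan's identity (helper818). -/

open Finset Filter

namespace Pool.Agent.Y818.YZ

open Pool.Agent.Y826.Z Pool.Agent
open Pool.Agent.Helper112 (betaV LamII)
open Pool.Agent.Helper112.TI (mu1 l1 mu1_apply l1_apply vaughan af_sub)
open Pool.Agent.Helper112.TII (hyper betaV_abs betaV_zero)

/-- the coefficient of the second type I part -/
noncomputable def nuL (U d : ℕ) : ℝ := (mu1 U * l1 U) d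

theorem nuL_zero (U : ℕ) : nuL U 0 = 0 := by
  unfold nuL; exact ArithmeticFunction.map_zero

theorem mu1_le (U d : ℕ) : |mu1 U d| ≤ 1 := by
  rw [mu1_apply]
  split_ifs
  · exact_mod_cast ArithmeticFunction.abs_moebius_le_one
  · simp

theorem l1_nonneg (U d : ℕ) : 0 ≤ l1 U d := by
  rw [l1_apply]
  split_ifs
  · exact ArithmeticFunction.vonMangoldt_nonneg
  · exact le_rfl

theorem l1_le (U d : ℕ) : l1 U d ≤ ArithmeticFunction.vonMangoldt d := by
  rw [l1_apply]
  split_ifs
  · exact le_rfl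
  · exact ArithmeticFunction.vonMangoldt_nonneg

theorem nuL_abs (U d : ℕ) : |nuL U d| ≤ Real.log d := by
  unfold nuL
  rw [ArithmeticFunction.mul_apply]
  calc |∑ x ∈ d.divisorsAntidiagonal, mu1 U x.1 * l1 U x.2|
      ≤ ∑ x ∈ d.divisorsAntidiagonal, ArithmeticFunction.vonMangoldt x.2 := by
        refine (abs_sum_le_sum_abs _ _).trans (sum_le_sum fun x _ => ?_)
        rw [abs_mul, abs_of_nonneg (l1_nonneg U x.2)]
        calc |mu1 U x.1| * l1 U x.2 ≤ 1 * l1 U x.2 :=
              mul_le_mul_of_nonneg_right (mu1_le U x.1) (l1_nonneg U x.2)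
          _ ≤ _ := by rw [one_mul]; exact l1_le U x.2
    _ = Real.log d := by
        rw [Nat.sum_divisorsAntidiagonal' (f := fun _ b => ArithmeticFunction.vonMangoldt b)]
        exact ArithmeticFunction.vonMangoldt_sum

theorem nuL_big (U d : ℕ) (hd : U * U < d) : nuL U d = 0 := by
  unfold nuL
  rw [ArithmeticFunction.mul_apply]
  apply sum_eq_zero
  intro x hx
  rw [Nat.mem_divisorsAntidiagonal] at hx
  rw [mu1_apply, l1_apply]
  by_cases h1 : x.1 ≤ U
  · by_cases h2 : x.2 ≤ U
    · exfalso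
      have := Nat.mul_le_mul h1 h2
      omega
    · rw [if_neg h2, mul_zero]
  · rw [if_neg h1, zero_mul]

/-- sums over factorisations as sums over a box -/
theorem box (T : ℕ) (g : ℕ → ℕ → ℝ) (hz : ∀ b c, T < b * c → g b c = 0) :
    ∑ n ∈ Icc 1 T, ∑ i ∈ n.divisorsAntidiagonal, g i.1 i.2 =
      ∑ b ∈ Icc 1 T, ∑ c ∈ Icc 1 T, g b c := by
  rw [hyper, sum_comm]
  apply sum_congr rfl
  intro c hc
  rw [mem_Icc] at hc
  apply sum_subset (Icc_subset_Icc_right (Nat.div_le_self _ _))
  intro b hb hb'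
  rw [mem_Icc] at hb hb'
  apply hz
  have h1 : T / c < b := by
    by_contra h
    exact hb' ⟨hb.1, by omega⟩
  exact (Nat.div_lt_iff_lt_mul (by omega)).1 h1

/-- Vaughan's identity for a weight supported on `(U ^ 3, T]` -/
theorem vau_id (w : ℕ → ℝ) (T U : ℕ) (hUT : U ≤ T) (h1 : ∀ n, n ≤ U * U * U → w n = 0)
    (h2 : ∀ n, T < n → w n = 0) :
    ∑ n ∈ Icc 1 T, ArithmeticFunction.vonMangoldt n * w n =
      ∑ m ∈ Ioc U T, ∑ n ∈ Ioc U T, betaV U m * ArithmeticFunction.vonMangoldt n * w (m * n) +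
      ∑ d ∈ Icc 1 U, mu1 U d * ∑ l ∈ Icc 1 T, Real.log l * w (d * l) -
      ∑ d ∈ Icc 1 U, nuL U d * ∑ l ∈ Icc 1 T, w (d * l) -
      ∑ m ∈ Ioc U T, ∑ n ∈ Ioc U T, nuL U m * w (m * n) := by
  have hsub1 : Ioc U T ⊆ Icc 1 T := by
    intro x hx
    rw [mem_Ioc] at hx
    rw [mem_Icc]
    omega
  have hsub2 : Icc 1 U ⊆ Icc 1 T := Icc_subset_Icc_right hUT
  -- the bilinear part
  have ea : ∑ n ∈ Icc 1 T, LamII U U n * w n =
      ∑ m ∈ Ioc U T, ∑ n ∈ Ioc U T, betaV U m * ArithmeticFunction.vonMangoldt n * w (m * n) := by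
    have e1 : ∑ n ∈ Icc 1 T, LamII U U n * w n =
        ∑ n ∈ Icc 1 T, ∑ i ∈ n.divisorsAntidiagonal,
          betaV U i.1 * (if U < i.2 then ArithmeticFunction.vonMangoldt i.2 else 0) * w (i.1 * i.2) := by
      apply sum_congr rfl
      intro n _
      unfold LamII
      rw [sum_mul]
      apply sum_congr rfl
      intro i hi
      rw [(Nat.mem_divisorsAntidiagonal.1 hi).1]
    rw [e1, box T (fun b c => betaV U b * (if U < c then ArithmeticFunction.vonMangoldt c else 0) *
      w (b * c)) (fun b c h => by rw [h2 _ h, mul_zero])]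
    symm
    have e2 : ∀ m ∈ Ioc U T, ∑ n ∈ Ioc U T, betaV U m * ArithmeticFunction.vonMangoldt n * w (m * n) =
        ∑ c ∈ Icc 1 T, betaV U m * (if U < c then ArithmeticFunction.vonMangoldt c else 0) *
          w (m * c) := by
      intro m _
      rw [← sum_subset hsub1]
      · apply sum_congr rfl
        intro c hc
        rw [mem_Ioc] at hc
        rw [if_pos hc.1]
      · intro c hc hc'
        rw [mem_Icc] at hc
        rw [mem_Ioc] at hc'
        rw [if_neg (by omega)]
        ring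
    rw [sum_congr rfl e2]
    apply sum_subset hsub1
    intro m hm hm'
    rw [mem_Icc] at hm
    rw [mem_Ioc] at hm'
    apply sum_eq_zero
    intro c _
    rw [betaV_zero U m (by omega)]
    ring
  -- the part `l1`
  have eb : ∑ n ∈ Icc 1 T, l1 U n * w n = 0 := by
    apply sum_eq_zero
    intro n hn
    rw [mem_Icc] at hn
    rw [l1_apply]
    by_cases h : n ≤ U
    · rw [h1 n, mul_zero]
      have hU : 1 ≤ U := hn.1.trans h
      calc n ≤ U := h
        _ = 1 * 1 * U := by ring
        _ ≤ U * U * U := Nat.mul_le_mul (Nat.mul_le_mul hU hU) le_rfl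
    · rw [if_neg h, zero_mul]
  -- the part `log * mu1`
  have ec : ∑ n ∈ Icc 1 T, (ArithmeticFunction.log * mu1 U) n * w n =
      ∑ d ∈ Icc 1 U, mu1 U d * ∑ l ∈ Icc 1 T, Real.log l * w (d * l) := by
    have e1 : ∑ n ∈ Icc 1 T, (ArithmeticFunction.log * mu1 U) n * w n =
        ∑ n ∈ Icc 1 T, ∑ i ∈ n.divisorsAntidiagonal, Real.log i.1 * mu1 U i.2 * w (i.1 * i.2) := by
      apply sum_congr rfl
      intro n _
      rw [ArithmeticFunction.mul_apply, sum_mul]
      apply sum_congr rfl
      intro i hi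
      rw [(Nat.mem_divisorsAntidiagonal.1 hi).1, ArithmeticFunction.log_apply]
    rw [e1, box T (fun b c => Real.log b * mu1 U c * w (b * c)) (fun b c h => by rw [h2 _ h, mul_zero]),
      sum_comm]
    symm
    have e2 : ∀ d ∈ Icc 1 U, mu1 U d * ∑ l ∈ Icc 1 T, Real.log l * w (d * l) =
        ∑ b ∈ Icc 1 T, Real.log b * mu1 U d * w (b * d) := by
      intro d _
      rw [mul_sum]
      apply sum_congr rfl
      intro l _
      rw [mul_comm l d]
      ring
    rw [sum_congr rfl e2]
    apply sum_subset hsub2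
    intro d hd hd'
    rw [mem_Icc] at hd hd'
    apply sum_eq_zero
    intro l _
    rw [mu1_apply, if_neg (by omega)]
    ring
  -- the part `ζ * nu`
  have ed : ∑ n ∈ Icc 1 T, (((ArithmeticFunction.zeta : ArithmeticFunction ℕ) :
        ArithmeticFunction ℝ) * (mu1 U * l1 U)) n * w n =
      ∑ d ∈ Icc 1 U, nuL U d * ∑ l ∈ Icc 1 T, w (d * l) +
      ∑ m ∈ Ioc U T, ∑ n ∈ Ioc U T, nuL U m * w (m * n) := by
    have e1 : ∑ n ∈ Icc 1 T, (((ArithmeticFunction.zeta : ArithmeticFunction ℕ) :
        ArithmeticFunction ℝ) * (mu1 U * l1 U)) n * w n =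
        ∑ n ∈ Icc 1 T, ∑ i ∈ n.divisorsAntidiagonal, nuL U i.2 * w (i.1 * i.2) := by
      apply sum_congr rfl
      intro n _
      rw [ArithmeticFunction.mul_apply, sum_mul]
      apply sum_congr rfl
      intro i hi
      have hi1 : i.1 ≠ 0 := by
        obtain ⟨h, h'⟩ := Nat.mem_divisorsAntidiagonal.1 hi
        intro h0
        rw [h0, zero_mul] at h
        exact h' h.symm
      rw [(Nat.mem_divisorsAntidiagonal.1 hi).1, ArithmeticFunction.natCoe_apply,
        ArithmeticFunction.zeta_apply_ne hi1]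
      unfold nuL
      ring
    rw [e1, box T (fun b c => nuL U c * w (b * c)) (fun b c h => by rw [h2 _ h, mul_zero]),
      sum_comm]
    have e3 : Icc 1 T = Icc 1 U ∪ Ioc U T := by
      ext x
      simp only [mem_Icc, mem_union, mem_Ioc]
      omega
    have e4 : Disjoint (Icc 1 U) (Ioc U T) := by
      rw [disjoint_left]
      intro x hx hx'
      rw [mem_Icc] at hx
      rw [mem_Ioc] at hx'
      omega
    conv_lhs => rw [e3, sum_union e4]
    rw [← e3]
    congr 1
    · apply sum_congr rfl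
      intro d _
      rw [mul_sum]
      apply sum_congr rfl
      intro l _
      rw [mul_comm l d]
    · apply sum_congr rfl
      intro d hd
      rw [mem_Ioc] at hd
      rw [← sum_subset hsub1]
      · apply sum_congr rfl
        intro l _
        rw [mul_comm l d]
      · intro l hl hl'
        rw [mem_Icc] at hl
        rw [mem_Ioc] at hl'
        by_cases h : U * U < d
        · rw [nuL_big U d h, zero_mul]
        · rw [h1 (l * d), mul_zero]
          have hlU : l ≤ U := by omega
          calc l * d ≤ U * (U * U) := Nat.mul_le_mul hlU (by omega)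
            _ = U * U * U := by ring
  have hV : ∀ n ∈ Icc 1 T, ArithmeticFunction.vonMangoldt n * w n =
      LamII U U n * w n + l1 U n * w n + (ArithmeticFunction.log * mu1 U) n * w n -
      (((ArithmeticFunction.zeta : ArithmeticFunction ℕ) :
        ArithmeticFunction ℝ) * (mu1 U * l1 U)) n * w n := by
    intro n _
    have := vaughan U U n
    have h3 : ArithmeticFunction.vonMangoldt n = LamII U U n + l1 U n +
      (ArithmeticFunction.log * mu1 U) n -
      (((ArithmeticFunction.zeta : ArithmeticFunction ℕ) :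
        ArithmeticFunction ℝ) * (mu1 U * l1 U)) n := by linarith
    rw [h3]
    ring
  rw [sum_congr rfl hV, sum_sub_distrib, sum_add_distrib, sum_add_distrib, ea, eb, ec, ed]
  ring

theorem Phi_low (n : ℕ) (X : ℝ) (hX : 0 < X) (hn : (n : ℝ) ≤ X) : H378R2.Phi (n / X) = 0 := by
  unfold H378R2.Phi
  apply max_eq_left
  have h1 : Real.log ((n : ℝ) / X) ≤ 0 := by
    apply Real.log_nonpos (by positivity)
    rw [div_le_one hX]; exact hn
  rw [abs_of_nonpos (by linarith)]
  linarith

theorem Phi_high (n : ℕ) (X : ℝ) (hX : 0 < X) (hn : 3 * X ≤ n) : H378R2.Phi (n / X) = 0 := by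
  unfold H378R2.Phi
  apply max_eq_left
  have h1 : 1 ≤ Real.log ((n : ℝ) / X) := by
    rw [Real.le_log_iff_exp_le (by
      apply div_pos _ hX
      linarith)]
    rw [le_div_iff₀ hX]
    have := Real.exp_one_lt_d9
    nlinarith
  rw [abs_of_nonneg (by linarith)]
  linarith

theorem tau_ge_one {n : ℕ} (hn : n ≠ 0) : 1 ≤ tau n := by
  unfold tau
  have : 0 < n.divisors.card := Finset.card_pos.2 ⟨1, Nat.one_mem_divisors.2 hn⟩
  exact_mod_cast this

theorem tau_ge_two {n : ℕ} (hn : 2 ≤ n) : 2 ≤ tau n := by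
  unfold tau
  have h : ({1, n} : Finset ℕ) ⊆ n.divisors := by
    intro x hx
    rw [mem_insert, mem_singleton] at hx
    rw [Nat.mem_divisors]
    rcases hx with rfl | rfl
    · exact ⟨one_dvd _, by omega⟩
    · exact ⟨dvd_rfl, by omega⟩
  have h2 := card_le_card h
  rw [card_pair (by omega)] at h2
  exact_mod_cast h2

theorem tau_nonneg (n : ℕ) : 0 ≤ tau n := by unfold tau; positivity

/-- S_LAM from S_BX and S_TI -/
theorem lam (hBX : S_BX) (hTI : S_TI) : S_LAM := by
  intro K h W b hyp δ hδ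
  obtain ⟨ε, hε, hA⟩ := hBX K h W b hyp δ hδ
  refine ⟨ε, hε, fun A => ?_⟩
  obtain ⟨B0, hB0⟩ := hA (A + 1)
  refine ⟨B0, fun B hB => ?_⟩
  have hlog1 : ∀ᶠ X : ℝ in atTop, 4 ≤ Real.log X := Real.tendsto_log_atTop.eventually_ge_atTop 4
  have hlogA : ∀ᶠ X : ℝ in atTop, 4 * X ^ (99 / 100 : ℝ) * (Real.log X) ^ A ≤ X := by
    have h1 := (isLittleO_log_rpow_rpow_atTop (A : ℝ) (show (0 : ℝ) < 1 / 100 by norm_num)).bound
      (show (0 : ℝ) < 1 / 4 by norm_num)
    filter_upwards [h1, eventually_ge_atTop 1, Real.tendsto_log_atTop.eventually_ge_atTop 0] with X hX1 hX2 hX3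
    rw [Real.norm_of_nonneg (by positivity), Real.norm_of_nonneg (by positivity), Real.rpow_natCast] at hX1
    have h2 : X ^ (99 / 100 : ℝ) * X ^ (1 / 100 : ℝ) = X := by
      rw [← Real.rpow_add (by linarith)]
      norm_num
    have h3 : 0 ≤ X ^ (99 / 100 : ℝ) := by positivity
    calc 4 * X ^ (99 / 100 : ℝ) * (Real.log X) ^ A
        ≤ 4 * X ^ (99 / 100 : ℝ) * (1 / 4 * X ^ (1 / 100 : ℝ)) := by gcongr
      _ = X ^ (99 / 100 : ℝ) * X ^ (1 / 100 : ℝ) := by ring
      _ = X := h2
  have hpow : ∀ᶠ X : ℝ in atTop, (2 : ℝ) ^ K ≤ X ^ (1 / 100 : ℝ) :=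
    (tendsto_rpow_atTop (show (0 : ℝ) < 1 / 100 by norm_num)).eventually_ge_atTop _
  filter_upwards [hB0 B hB, hTI K h W b hyp B, hlog1, hlogA, hpow, eventually_ge_atTop 3] with
    X hbx hti hl4 hfin hK2 hX3
  intro Q hQ hprod hG S hS c hc
  have hX0 : 0 < X := by linarith
  set U := ⌊X ^ (1 / 3 : ℝ)⌋₊ with hU
  set T := ⌊3 * X⌋₊ with hT
  have hUr : (U : ℝ) ≤ X ^ (1 / 3 : ℝ) := Nat.floor_le (by positivity)
  have hU3 : ((U * U * U : ℕ) : ℝ) ≤ X := by
    push_cast
    calc (U : ℝ) * U * U ≤ X ^ (1 / 3 : ℝ) * X ^ (1 / 3 : ℝ) * X ^ (1 / 3 : ℝ) := by gcongr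
      _ = X := by
        rw [← Real.rpow_add hX0, ← Real.rpow_add hX0]
        norm_num
  have hUX : (U : ℝ) ≤ X := by
    refine hUr.trans ?_
    calc X ^ (1 / 3 : ℝ) ≤ X ^ (1 : ℝ) := Real.rpow_le_rpow_of_exponent_le (by linarith) (by norm_num)
      _ = X := Real.rpow_one X
  have hU2 : ((U * U : ℕ) : ℝ) ≤ X := by
    push_cast
    calc (U : ℝ) * U ≤ X ^ (1 / 3 : ℝ) * X ^ (1 / 3 : ℝ) := by gcongr
      _ = X ^ (2 / 3 : ℝ) := by
        rw [← Real.rpow_add hX0]
        norm_num
      _ ≤ X ^ (1 : ℝ) := Real.rpow_le_rpow_of_exponent_le (by linarith) (by norm_num)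
      _ = X := Real.rpow_one X
  have hUT : U ≤ T := by
    apply Nat.floor_mono
    calc X ^ (1 / 3 : ℝ) ≤ X ^ (1 : ℝ) := Real.rpow_le_rpow_of_exponent_le (by linarith) (by norm_num)
      _ = X := Real.rpow_one X
      _ ≤ 3 * X := by linarith
  have hlogT : ∀ n : ℕ, n ≤ T → Real.log n ≤ 2 * Real.log X := by
    intro n hn
    rcases Nat.eq_zero_or_pos n with h0 | h0
    · rw [h0]; simp; linarith
    · have h1 : (n : ℝ) ≤ 3 * X := (Nat.cast_le.2 hn).trans (Nat.floor_le (by positivity))
      calc Real.log n ≤ Real.log (3 * X) := Real.log_le_log (by exact_mod_cast h0) h1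
        _ ≤ Real.log (X * X) := Real.log_le_log (by positivity) (by nlinarith)
        _ = 2 * Real.log X := by rw [Real.log_mul (by positivity) (by positivity)]; ring
  -- coefficients
  have hcoef1 : ∀ m, |betaV U m| ≤ tau m * Real.log X := by
    intro m
    refine (betaV_abs U m).trans ?_
    have : (m.divisors.card : ℝ) = tau m := rfl
    rw [this]
    nlinarith [tau_nonneg m]
  have hcoef2 : ∀ n, |(if n ≤ T then ArithmeticFunction.vonMangoldt n else 0)| ≤ tau n * Real.log X := by
    intro n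
    split_ifs with hn
    · rw [abs_of_nonneg ArithmeticFunction.vonMangoldt_nonneg]
      rcases Nat.lt_or_ge n 2 with h2 | h2
      · have : ArithmeticFunction.vonMangoldt n = 0 := by
          interval_cases n
          · simp
          · exact ArithmeticFunction.vonMangoldt_apply_one
        rw [this]
        have := tau_nonneg n
        positivity
      · refine ArithmeticFunction.vonMangoldt_le_log.trans ((hlogT n hn).trans ?_)
        exact mul_le_mul_of_nonneg_right (tau_ge_two h2) (by linarith)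
    · rw [abs_zero]
      have := tau_nonneg n
      positivity
  have hcoef3 : ∀ d, |mu1 U d| ≤ tau d * Real.log X := by
    intro d
    rcases Nat.eq_zero_or_pos d with h0 | h0
    · rw [h0, ArithmeticFunction.map_zero, abs_zero]
      have := tau_nonneg 0
      positivity
    · have h1 := tau_ge_one (n := d) (by omega)
      have h2 := mu1_le U d
      nlinarith
  have hcoef4 : ∀ d, |nuL U d| ≤ tau d * Real.log X := by
    intro d
    rcases Nat.eq_zero_or_pos d with h0 | h0
    · rw [h0, nuL_zero, abs_zero]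
      have := tau_nonneg 0
      positivity
    · by_cases h1 : U * U < d
      · rw [nuL_big U d h1, abs_zero]
        have := tau_nonneg d
        positivity
      · refine (nuL_abs U d).trans ?_
        have h2 : (d : ℝ) ≤ X := (Nat.cast_le.2 (by omega : d ≤ U * U)).trans hU2
        have h3 : Real.log d ≤ Real.log X := Real.log_le_log (by exact_mod_cast h0) h2
        have h4 := tau_ge_one (n := d) (by omega)
        nlinarith
  have hcoef5 : ∀ n : ℕ, |(if n = 0 then (0 : ℝ) else 1)| ≤ tau n * Real.log X := by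
    intro n
    split_ifs with hn
    · rw [abs_zero]
      have := tau_nonneg n
      positivity
    · rw [abs_one]
      have h4 := tau_ge_one hn
      nlinarith
  -- sizes of the moduli
  have hSq : ∀ q ∈ S, Squarefree (W * Pr q) ∧ (Pr q : ℝ) ≤ X ^ (14 / 25 : ℝ) := by
    intro q hq
    obtain ⟨h1, h2, _⟩ := hS q hq
    refine ⟨h1, ?_⟩
    have h3 : (Pr q : ℝ) ≤ ∏ j, (2 * Q j) := by
      unfold Pr
      push_cast
      exact prod_le_prod (fun j _ => by positivity) (fun j _ => (h2 j).2)
    rw [prod_mul_distrib, prod_const, card_univ, Fintype.card_fin] at h3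
    calc (Pr q : ℝ) ≤ 2 ^ K * ∏ j, Q j := h3
      _ ≤ X ^ (1 / 100 : ℝ) * X ^ (11 / 20 : ℝ) := by
        apply mul_le_mul hK2 hprod _ (by positivity)
        exact prod_nonneg (fun j _ => (hQ j).le)
      _ = X ^ (14 / 25 : ℝ) := by
        rw [← Real.rpow_add hX0]
        norm_num
  -- the four parts
  have b1 := hbx Q hQ hG S hS c hc (betaV U) (fun n => if n ≤ T then ArithmeticFunction.vonMangoldt n else 0)
    hcoef1 hcoef2
  have b4 := hbx Q hQ hG S hS c hc (nuL U) (fun n => if n = 0 then 0 else 1) hcoef4 hcoef5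
  have hUD : (U : ℝ) ≤ 4 * X ^ (1 / 3 : ℝ) := by
    have : 0 ≤ X ^ (1 / 3 : ℝ) := by positivity
    linarith
  have b2 := hti S hSq c hc (fun d => mu1 U d) hcoef3 (fun l => Real.log l) (Or.inr fun _ => rfl) U hUD
  have b3 := hti S hSq c hc (nuL U) hcoef4 (fun _ => 1) (Or.inl fun _ => rfl) U hUD
  have key : ∑ q ∈ S, c q * ∑ n ∈ Icc 1 T, H378R2.Phi (n / X) * ArithmeticFunction.vonMangoldt n *
      dl h W b (D0 X B) q n =
      ∑ q ∈ S, c q * ∑ m ∈ Ioc U T, ∑ n ∈ Ioc U T,
        betaV U m * (if n ≤ T then ArithmeticFunction.vonMangoldt n else 0) *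
          H378R2.Phi (((m * n : ℕ) : ℝ) / X) * dl h W b (D0 X B) q (m * n) +
      ∑ q ∈ S, c q * ∑ d ∈ Icc 1 U, mu1 U d * ∑ l ∈ Icc 1 T,
        Real.log l * H378R2.Phi (((d * l : ℕ) : ℝ) / X) * dl h W b (D0 X B) q (d * l) -
      ∑ q ∈ S, c q * ∑ d ∈ Icc 1 U, nuL U d * ∑ l ∈ Icc 1 T,
        1 * H378R2.Phi (((d * l : ℕ) : ℝ) / X) * dl h W b (D0 X B) q (d * l) -
      ∑ q ∈ S, c q * ∑ m ∈ Ioc U T, ∑ n ∈ Ioc U T,
        nuL U m * (if n = 0 then 0 else 1) *
          H378R2.Phi (((m * n : ℕ) : ℝ) / X) * dl h W b (D0 X B) q (m * n) := by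
    rw [← sum_add_distrib, ← sum_sub_distrib, ← sum_sub_distrib]
    apply sum_congr rfl
    intro q _
    rw [← mul_add, ← mul_sub, ← mul_sub]
    congr 1
    have hv := vau_id (fun n => H378R2.Phi (n / X) * dl h W b (D0 X B) q n) T U hUT
      (fun n hn => by
        rw [Phi_low n X hX0 ((Nat.cast_le.2 hn).trans hU3), zero_mul])
      (fun n hn => by
        rw [Phi_high n X hX0 ((Nat.lt_floor_add_one (3 * X)).le.trans (by
          have : T + 1 ≤ n := hn
          exact_mod_cast this)), zero_mul])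
    have hL : ∑ n ∈ Icc 1 T, H378R2.Phi (n / X) * ArithmeticFunction.vonMangoldt n *
        dl h W b (D0 X B) q n = ∑ n ∈ Icc 1 T, ArithmeticFunction.vonMangoldt n *
        (H378R2.Phi (n / X) * dl h W b (D0 X B) q n) := by
      apply sum_congr rfl
      intro n _
      ring
    rw [hL, hv]
    congr 1
    · congr 1
      · congr 1
        · apply sum_congr rfl
          intro m _
          apply sum_congr rfl
          intro n hn
          rw [mem_Ioc] at hn
          rw [if_pos hn.2]
          ring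
        · apply sum_congr rfl
          intro d _
          congr 1
          apply sum_congr rfl
          intro l _
          ring
      · apply sum_congr rfl
        intro d _
        congr 1
        apply sum_congr rfl
        intro l _
        ring
    · apply sum_congr rfl
      intro m _
      apply sum_congr rfl
      intro n hn
      rw [mem_Ioc] at hn
      rw [if_neg (by omega)]
      ring
  rw [key]
  have hfin2 : 2 * (X / (Real.log X) ^ (A + 1)) + 2 * X ^ (99 / 100 : ℝ) ≤ X / (Real.log X) ^ A := by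
    have hLp : 0 < Real.log X := by linarith
    have hLA : 0 < (Real.log X) ^ A := by positivity
    have e1 : 2 * (X / (Real.log X) ^ (A + 1)) ≤ 1 / 2 * (X / (Real.log X) ^ A) := by
      rw [pow_succ, ← div_div]
      have h5 : 0 ≤ X / (Real.log X) ^ A := by positivity
      have h6 : X / (Real.log X) ^ A / Real.log X ≤ X / (Real.log X) ^ A / 4 := by gcongr
      linarith
    have e2 : 2 * X ^ (99 / 100 : ℝ) ≤ 1 / 2 * (X / (Real.log X) ^ A) := by
      rw [show (1 : ℝ) / 2 * (X / (Real.log X) ^ A) = (X / 2) / (Real.log X) ^ A by ring,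
        le_div_iff₀ hLA]
      linarith
    linarith
  calc |_| ≤ X / (Real.log X) ^ (A + 1) + X ^ (99 / 100 : ℝ) + X ^ (99 / 100 : ℝ) +
        X / (Real.log X) ^ (A + 1) := by
        refine (abs_sub _ _).trans (add_le_add ((abs_sub _ _).trans (add_le_add
          ((abs_add_le _ _).trans (add_le_add b1 b2)) b3)) b4)
    _ ≤ X / (Real.log X) ^ A := by linarith

end Pool.Agent.Y818.YZ

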